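import Pool.Agent.N906.KG.Grid

/-!
# Project KG, part BASQ: basic facts on local heights
-/

set_option autoImplicit false

namespace Pool.Agent.N954.KG

open NumberField IsDedekindDomain Finset Pool.Agent.H691R3 Pool.Agent.W223.AK
open Pool.Agent.N906.KG

variable {K : Type} [Field K] [NumberField K] {q : ℕ}

lemma of_wedge {α : Fin q → K × K} {x : K} (h : Of α x) (l : Fin q) :
    (aff x).1 * (α l).2 - (aff x).2 * (α l).1 ≠ 0 := by
  have := h l
  simpa [aff] using this

lemma gd_exists (α : Fin q → K × K) (hα : Al α) :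
    ∃ S₀ : Finset (Pr K), ∀ S : Finset (Pr K), S₀ ⊆ S → Gd S α := by
  classical
  have h1 : ∀ l, {v : Pr K | max (fv v (α l).1) (fv v (α l).2) ≠ 1}.Finite := fun l =>
    max_support_finite (hα.1 l)
  have h2 : ∀ i j, i ≠ j → {v : Pr K | fv v ((α i).1 * (α j).2 - (α i).2 * (α j).1) ≠ 1}.Finite :=
    fun i j hij => fv_support_finite (hα.2 i j hij)
  have h3 : ∀ i j, {v : Pr K | i ≠ j ∧ fv v ((α i).1 * (α j).2 - (α i).2 * (α j).1) ≠ 1}.Finite := by
    intro i j
    by_cases hij : i = j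
    · refine Set.Finite.subset Set.finite_empty ?_
      rintro v ⟨h, -⟩
      exact absurd hij h
    · exact (h2 i j hij).subset fun v hv => hv.2
  refine ⟨(univ.biUnion fun l => (h1 l).toFinset) ∪
    (univ.biUnion fun i => univ.biUnion fun j => (h3 i j).toFinset), ?_⟩
  intro S hS v hv
  constructor
  · intro l
    by_contra hcon
    apply hv
    apply hS
    rw [mem_union]; left
    rw [mem_biUnion]
    exact ⟨l, mem_univ _, (h1 l).mem_toFinset.2 hcon⟩
  · intro i j hij
    by_contra hcon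
    apply hv
    apply hS
    rw [mem_union]; right
    rw [mem_biUnion]
    refine ⟨i, mem_univ _, ?_⟩
    rw [mem_biUnion]
    exact ⟨j, mem_univ _, (h3 i j).mem_toFinset.2 ⟨hij, hcon⟩⟩

lemma isP_exists {α : Fin q → K × K} (hα : Al α) (S : Finset (Pr K)) {x : K} (hx : Of α x) :
    ∃ P, IsP S α x P := by
  classical
  have hd : ∀ (l : Fin q) (v : Pr K), ∃ m : ℕ, lamA (fv v) (aff x) (α l) = m * Real.log (Nv v) :=
    fun l v => lamF_discrete v (aff_ne_zero x) (hα.1 l) (of_wedge hx l)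
  choose m hm using hd
  have hf : ∀ l, {v : Pr K | lamA (fv v) (aff x) (α l) ≠ 0}.Finite := fun l =>
    lamF_support_finite (aff_ne_zero x) (hα.1 l) (of_wedge hx l)
  refine ⟨fun l => Finsupp.onFinset (hf l).toFinset (fun v => if v ∈ S then 0 else m l v) ?_, ?_, ?_⟩
  · intro v hv
    rw [Set.Finite.mem_toFinset]
    show lamA (fv v) (aff x) (α l) ≠ 0
    by_cases hvS : v ∈ S
    · rw [if_pos hvS] at hv; exact absurd rfl hv
    · rw [if_neg hvS] at hv
      rw [hm]
      exact mul_ne_zero (by exact_mod_cast hv) (log_Nv_pos v).ne'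
  · intro l v hv
    rw [Finsupp.onFinset_apply, if_pos hv]
  · intro l v hv
    rw [Finsupp.onFinset_apply, if_neg hv]
    exact hm l v

lemma lam_good {α : Fin q → K × K} {S : Finset (Pr K)} (hS : Gd S α) {v : Pr K} (hv : v ∉ S)
    {l l' : Fin q} (hl : l ≠ l') : lam (Sum.inr v : Pl K) (α l) (α l') = 0 := by
  obtain ⟨h1, h2⟩ := hS v hv
  show lamA (fv v) (α l) (α l') = 0
  unfold lamA
  rw [h1, h1, h2 l l' hl]
  simp

lemma cop_of {α : Fin q → K × K} (hα : Al α) {S : Finset (Pr K)} (hS : Gd S α) {x : K} (hx : Of α x)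
    {P : Fin q → Idl K} (hP : IsP S α x P) {l l' : Fin q} (hl : l ≠ l') : Cop (P l) (P l') := by
  intro v
  by_cases hv : v ∈ S
  · left; exact hP.1 l v hv
  by_contra hcon
  push Not at hcon
  have hlog := log_Nv_pos v
  have h1 : ∀ j, P j v ≠ 0 → Real.log (Nv v) ≤ lam (Sum.inr v : Pl K) (aff x) (α j) := by
    intro j hj
    rw [hP.2 j v hv]
    have : (1 : ℝ) ≤ P j v := by exact_mod_cast Nat.one_le_iff_ne_zero.2 hj
    nlinarith
  have h2 := h1 l hcon.1
  have h3 := h1 l' hcon.2
  rw [lam_comm] at h2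
  have h4 := lam_triangle (Sum.inr v : Pl K) (hα.1 l) (aff_ne_zero x) (hα.1 l') (hα.2 l l' hl)
    (wedge_ne_comm (of_wedge hx l)) (of_wedge hx l') _ h2 h3
  rw [lam_good hS hv hl] at h4
  have h5 : loss (Sum.inr v : Pl K) = 0 := rfl
  rw [h5] at h4
  linarith

lemma sum_formula {α : Fin q → K × K} (hα : Al α) {S : Finset (Pr K)} {x : K} (hx : Of α x)
    {P : Fin q → Idl K} (hP : IsP S α x P) (l : Fin q) :
    hr (aff x) + hr (α l) = len (P l) + ∑ v ∈ Spl S, lam v (aff x) (α l) := by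
  classical
  have h1 := sum_lam (aff_ne_zero x) (hα.1 l) (of_wedge hx l)
  have h2 : ∑ᶠ v : Pr K, lamA (fv v) (aff x) (α l) =
      ∑ v ∈ S ∪ (P l).support, lamA (fv v) (aff x) (α l) := by
    refine finsum_eq_sum_of_support_subset _ ?_
    intro v hv
    rw [Finset.coe_union]
    by_cases hvS : v ∈ S
    · left; exact hvS
    · right
      rw [Finset.mem_coe, Finsupp.mem_support_iff]
      intro h0
      apply hv
      have h3 := hP.2 l v hvS
      rw [h0, Nat.cast_zero, zero_mul] at h3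
      exact h3
  have hdis : Disjoint S (P l).support := by
    rw [Finset.disjoint_left]
    intro v hv h
    rw [Finsupp.mem_support_iff] at h
    exact h (hP.1 l v hv)
  rw [Finset.sum_union hdis] at h2
  have h3 : ∑ v ∈ (P l).support, lamA (fv v) (aff x) (α l) = len (P l) := by
    unfold len
    refine Finset.sum_congr rfl fun v hv => ?_
    exact hP.2 l v (fun hvS => (Finset.disjoint_left.1 hdis hvS) hv)
  have h4 : ∑ v ∈ Spl S, lam v (aff x) (α l) =
      ∑ w : InfinitePlace K, (w.mult : ℝ) * lamA w.1 (aff x) (α l) +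
        ∑ v ∈ S, lamA (fv v) (aff x) (α l) := by
    unfold Spl
    rw [Finset.sum_disjSum]
    rfl
  rw [h4, ← h1, h2, h3]
  ring

theorem basq (K : Type) [Field K] [NumberField K] : S_BASQ K := by
  classical
  intro q α hq hα
  refine ⟨gd_exists α hα, ?_⟩
  intro S hS
  set A1 : ℝ := ∑ l, |hr (α l)| with hA1
  set A2 : ℝ := ∑ v ∈ Spl S, ∑ l, ∑ l', |lam v (α l) (α l')| with hA2
  set A3 : ℝ := ∑ v ∈ Spl S, loss v with hA3
  have hA10 : 0 ≤ A1 := Finset.sum_nonneg fun _ _ => abs_nonneg _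
  have hA20 : 0 ≤ A2 := Finset.sum_nonneg fun _ _ => Finset.sum_nonneg fun _ _ =>
    Finset.sum_nonneg fun _ _ => abs_nonneg _
  have hA30 : 0 ≤ A3 := Finset.sum_nonneg fun v _ => loss_nonneg v
  have hlK := lossK_nonneg K
  have h1 : ∀ l, |hr (α l)| ≤ A1 := fun l =>
    Finset.single_le_sum (f := fun l => |hr (α l)|) (fun _ _ => abs_nonneg _) (mem_univ l)
  have h2 : ∀ v ∈ Spl S, ∀ l l', |lam v (α l) (α l')| ≤ A2 := by
    intro v hv l l'
    have e1 : |lam v (α l) (α l')| ≤ ∑ l', |lam v (α l) (α l')| :=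
      Finset.single_le_sum (f := fun l' => |lam v (α l) (α l')|) (fun _ _ => abs_nonneg _) (mem_univ l')
    have e2 : ∑ l', |lam v (α l) (α l')| ≤ ∑ l, ∑ l', |lam v (α l) (α l')| :=
      Finset.single_le_sum (f := fun l => ∑ l', |lam v (α l) (α l')|)
        (fun _ _ => Finset.sum_nonneg fun _ _ => abs_nonneg _) (mem_univ l)
    have e3 : ∑ l, ∑ l', |lam v (α l) (α l')| ≤ A2 :=
      Finset.single_le_sum (f := fun v => ∑ l, ∑ l', |lam v (α l) (α l')|)
        (fun _ _ => Finset.sum_nonneg fun _ _ => Finset.sum_nonneg fun _ _ => abs_nonneg _) hv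
    exact e1.trans (e2.trans e3)
  have h3 : ∀ v ∈ Spl S, loss v ≤ A3 := fun v hv =>
    Finset.single_le_sum (f := fun v => loss v) (fun v _ => loss_nonneg v) hv
  have hle : ∀ x : K, Of α x → ∀ (v : Pl K) (l : Fin q),
      lam v (aff x) (α l) ≤ hr (aff x) + (A1 + lossK K + A2 + A3) := by
    intro x hx v l
    have e := sum_lam_le (aff_ne_zero x) (hα.1 l) (of_wedge hx l) {v}
    rw [Finset.sum_singleton] at e
    have e1 := (le_abs_self _).trans (h1 l)
    linarith
  refine ⟨A1 + lossK K + A2 + A3, by positivity, ?_⟩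
  intro x hx
  refine ⟨isP_exists hα S hx, ?_, ?_, ?_⟩
  · intro P hP
    refine ⟨fun l l' hl => cop_of hα hS hx hP hl, ?_, ?_⟩
    · have e : (q : ℝ) * hr (aff x) - tl P - ∑ l, ∑ v ∈ Spl S, lam v (aff x) (α l) =
          -∑ l, hr (α l) := by
        have e1 : ∑ l : Fin q, (hr (aff x) + hr (α l)) =
            ∑ l, (len (P l) + ∑ v ∈ Spl S, lam v (aff x) (α l)) :=
          Finset.sum_congr rfl fun l _ => sum_formula hα hx hP l
        rw [Finset.sum_add_distrib, Finset.sum_add_distrib, Finset.sum_const, Finset.card_univ,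
          Fintype.card_fin, nsmul_eq_mul] at e1
        unfold tl
        linarith
      rw [e, abs_neg]
      have e2 : |∑ l, hr (α l)| ≤ A1 := Finset.abs_sum_le_sum_abs _ _
      linarith
    · intro l v
      by_cases hv : v ∈ S
      · rw [hP.1 l v hv, Nat.cast_zero, zero_mul]
        have := hr_aff_nonneg x
        linarith
      · rw [← hP.2 l v hv]
        exact hle x hx _ l
  · intro v hv
    refine ⟨fun l => lam_ge v (aff_ne_zero x) (hα.1 l) (of_wedge hx l), ?_⟩
    haveI : Nonempty (Fin q) := ⟨⟨0, by omega⟩⟩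
    obtain ⟨τ, -, hτ⟩ := Finset.exists_max_image (univ : Finset (Fin q)) (fun l => lam v (aff x) (α l))
      Finset.univ_nonempty
    refine ⟨τ, fun l hl => ?_⟩
    have e1 : lam v (aff x) (α l) ≤ lam v (α l) (aff x) := (lam_comm v _ _).le
    have e2 : lam v (aff x) (α l) ≤ lam v (aff x) (α τ) := hτ l (mem_univ l)
    have e3 := lam_triangle v (hα.1 l) (aff_ne_zero x) (hα.1 τ) (hα.2 l τ hl)
      (wedge_ne_comm (of_wedge hx l)) (of_wedge hx τ) _ e1 e2
    have e4 := (le_abs_self _).trans (h2 v hv l τ)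
    have e5 := h3 v hv
    linarith
  · intro v _ l
    exact hle x hx v l

end Pool.Agent.N954.KG
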