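import Mathlib
import Pool.Agent.N604.MW.Stm4

/-!
# Project KV, part KEY
-/

set_option autoImplicit false

namespace Pool.Agent.N954.KV

open Finset MeasureTheory Pool.Agent.N604.MW

lemma qq_nonneg (t : ℝ) : 0 ≤ qq t := by
  unfold qq; split_ifs <;> positivity

lemma qq_le (t : ℝ) : qq t ≤ 5 * (1 + t ^ 2)⁻¹ := by
  unfold qq
  split_ifs with h
  · have : t ^ 2 ≤ 4 := by
      rw [← sq_abs]; nlinarith [abs_nonneg t]
    rw [← div_eq_mul_inv, le_div_iff₀ (by positivity)]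
    linarith
  · push Not at h
    have h1 : 4 < t ^ 2 := by rw [← sq_abs]; nlinarith [abs_nonneg t]
    rw [← div_eq_mul_inv, div_le_div_iff₀ (by positivity) (by positivity)]
    linarith

lemma qq_meas : Measurable qq := by
  unfold qq
  refine Measurable.ite ?_ measurable_const (by fun_prop)
  exact measurableSet_le (by fun_prop) measurable_const

lemma qq_prod_int (n : ℕ) : ∃ Q : ℝ, 0 ≤ Q ∧
    ∫⁻ γ : Fin n → ℝ, ENNReal.ofReal (∏ j, qq (γ j)) ≤ ENNReal.ofReal Q := by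
  have hi : Integrable (fun γ : Fin n → ℝ => ∏ j, 5 * (1 + γ j ^ 2)⁻¹) :=
    MeasureTheory.Integrable.fintype_prod (fun _ => integrable_inv_one_add_sq.const_mul 5)
  have h0 : ∀ γ : Fin n → ℝ, 0 ≤ ∏ j, 5 * (1 + γ j ^ 2)⁻¹ := fun γ =>
    Finset.prod_nonneg fun j _ => by positivity
  refine ⟨∫ γ : Fin n → ℝ, ∏ j, 5 * (1 + γ j ^ 2)⁻¹, integral_nonneg h0, ?_⟩
  rw [ofReal_integral_eq_lintegral_ofReal hi (Filter.Eventually.of_forall h0)]
  apply lintegral_mono
  intro γ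
  apply ENNReal.ofReal_le_ofReal
  exact Finset.prod_le_prod (fun j _ => qq_nonneg _) fun j _ => qq_le _

lemma VV_nonneg (n k X : ℕ) (T : ℝ) (γ : Fin n → ℝ) : 0 ≤ VV n k X T γ := by
  unfold VV; exact Nat.cast_nonneg _

lemma GS_nonneg (n k X : ℕ) (γ : Fin n → ℝ) : 0 ≤ GS n k X γ := by
  unfold GS; exact Finset.sum_nonneg fun x _ => (Real.exp_pos _).le

lemma GS_le (n k X : ℕ) (T : ℝ) (hT : 0 ≤ T) (γ : Fin n → ℝ) :
    GS n k X γ ≤ VV n k X T γ + ((X : ℝ) + 1) ^ n * Real.exp (-(2 * Real.pi ^ 2 * T ^ 2)) := by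
  classical
  have hcard : ((Fintype.piFinset (fun _ : Fin n => Finset.Icc X (2 * X))).card : ℝ) = ((X : ℝ) + 1) ^ n := by
    rw [Fintype.card_piFinset]
    simp only [Nat.card_Icc, Finset.prod_const, Finset.card_univ, Fintype.card_fin]
    have : 2 * X + 1 - X = X + 1 := by omega
    rw [this]; push_cast; rfl
  have h1 : GS n k X γ ≤ ∑ x ∈ Fintype.piFinset (fun _ : Fin n => Finset.Icc X (2 * X)),
      ((if (∀ l ∈ Finset.Icc 1 k, |∑ j, γ j * (x j : ℝ) ^ l| ≤ T) then (1 : ℝ) else 0) +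
        Real.exp (-(2 * Real.pi ^ 2 * T ^ 2))) := by
    unfold GS
    apply Finset.sum_le_sum
    intro x _
    split_ifs with h
    · have : Real.exp (-(2 * Real.pi ^ 2 * ∑ l : Fin k, (∑ j, γ j * (x j : ℝ) ^ ((l : ℕ) + 1)) ^ 2)) ≤ 1 := by
        apply Real.exp_le_one_iff.2
        have : 0 ≤ 2 * Real.pi ^ 2 * ∑ l : Fin k, (∑ j, γ j * (x j : ℝ) ^ ((l : ℕ) + 1)) ^ 2 := by positivity
        linarith
      have h2 := Real.exp_pos (-(2 * Real.pi ^ 2 * T ^ 2))
      linarith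
    · push Not at h
      obtain ⟨l, hl, hlT⟩ := h
      rw [Finset.mem_Icc] at hl
      rw [zero_add]
      apply Real.exp_le_exp.2
      have h2 : T ^ 2 ≤ ∑ l : Fin k, (∑ j, γ j * (x j : ℝ) ^ ((l : ℕ) + 1)) ^ 2 := by
        have h3 := Finset.single_le_sum (f := fun l : Fin k => (∑ j, γ j * (x j : ℝ) ^ ((l : ℕ) + 1)) ^ 2)
          (fun i _ => sq_nonneg _) (Finset.mem_univ (⟨l - 1, by omega⟩ : Fin k))
        refine le_trans ?_ h3
        have h4 : ((⟨l - 1, by omega⟩ : Fin k) : ℕ) + 1 = l := by simp only; omega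
        simp only at h4 ⊢
        rw [h4, ← sq_abs (∑ j, γ j * (x j : ℝ) ^ l)]
        nlinarith
      have h5 : 0 ≤ 2 * Real.pi ^ 2 := by positivity
      have := mul_le_mul_of_nonneg_left h2 h5
      linarith
  refine h1.trans (le_of_eq ?_)
  rw [Finset.sum_add_distrib, Finset.sum_const, nsmul_eq_mul, hcard]
  congr 1
  unfold VV
  rw [Finset.natCast_card_filter]

theorem key (h1 : S_PART) (h2 : S_WINT) : S_KEY := by
  intro m k s hs hm hk hmk hms hks hhs
  obtain ⟨C, hC, X0, hX0⟩ := h1 m k s hs hm hmk (by omega) hhs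
  have hW : ∀ g : ℕ, ∃ Cg : ℝ, 0 < Cg ∧ (g ∈ Finset.Icc 1 m → ∀ (X : ℕ) (T : ℝ), 2 ≤ X →
      1 ≤ T → ∫⁻ B : Fin g → ℝ, ENNReal.ofReal (WW g k X T B ^ s) ≤
        ENNReal.ofReal (Cg * T ^ g * (X : ℝ) ^ ((g : ℝ) * ((s : ℝ) - k + 1)))) := by
    intro g
    by_cases hg : g ∈ Finset.Icc 1 m
    · have hg' := Finset.mem_Icc.1 hg
      obtain ⟨Cg, hCg, H⟩ := h2 g k s hg'.1 hk (by omega) (by omega)
      exact ⟨Cg, hCg, fun _ => H⟩
    · exact ⟨1, one_pos, fun h => absurd h hg⟩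
  choose Cg hCg HW using hW
  obtain ⟨Q, hQ, hQi⟩ := qq_prod_int (2 * m)
  set A : ℝ := 2 ^ s * (C * ∑ g ∈ Finset.Icc 1 m, Cg g) + 2 ^ s * Q with hA
  have hsum : 0 < ∑ g ∈ Finset.Icc 1 m, Cg g :=
    Finset.sum_pos (fun g _ => hCg g) ⟨1, Finset.mem_Icc.2 ⟨le_refl _, hm⟩⟩
  have hA0 : 0 < A := by positivity
  refine ⟨A, hA0, max X0 (max 3 ⌈Real.exp (2 * m)⌉₊), ?_⟩
  intro X hX
  have hXa : X0 ≤ X := (le_max_left _ _).trans hX
  have hXb : 3 ≤ X := ((le_max_left _ _).trans (le_max_right _ _)).trans hX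
  have hXc : Real.exp (2 * m) ≤ X :=
    Nat.ceil_le.1 (((le_max_right _ _).trans (le_max_right _ _)).trans hX)
  have hX3 : (3 : ℝ) ≤ X := by exact_mod_cast hXb
  have hX0' : (0 : ℝ) < X := by linarith
  set T : ℝ := Real.log X with hT
  have hT1 : 1 ≤ T := by
    rw [hT, Real.le_log_iff_exp_le hX0']
    have := Real.exp_one_lt_d9
    linarith
  have hTn : 2 * (m : ℝ) ≤ T := by
    rw [hT, Real.le_log_iff_exp_le hX0']; exact hXc
  -- the tail is at most 1
  have htail : ((X : ℝ) + 1) ^ (2 * m) * Real.exp (-(2 * Real.pi ^ 2 * T ^ 2)) ≤ 1 := by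
    have e1 : ((X : ℝ) + 1) ≤ Real.exp (2 * T) := by
      have : Real.exp (2 * T) = (X : ℝ) ^ 2 := by
        rw [two_mul, Real.exp_add, hT, Real.exp_log hX0']; ring
      rw [this]; nlinarith
    have e2 : ((X : ℝ) + 1) ^ (2 * m) ≤ Real.exp (2 * T * (2 * m)) := by
      calc ((X : ℝ) + 1) ^ (2 * m) ≤ (Real.exp (2 * T)) ^ (2 * m) := pow_le_pow_left₀ (by positivity) e1 _
        _ = _ := by rw [← Real.exp_nat_mul]; congr 1; push_cast; ring
    calc _ ≤ Real.exp (2 * T * (2 * m)) * Real.exp (-(2 * Real.pi ^ 2 * T ^ 2)) :=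
          mul_le_mul_of_nonneg_right e2 (Real.exp_pos _).le
      _ = Real.exp (2 * T * (2 * m) - 2 * Real.pi ^ 2 * T ^ 2) := by rw [← Real.exp_add]; congr 1
      _ ≤ 1 := by
        apply Real.exp_le_one_iff.2
        have hpi : 1 ≤ Real.pi ^ 2 := by nlinarith [Real.pi_gt_three]
        have h3 : T * (2 * m) ≤ T * T := mul_le_mul_of_nonneg_left hTn (by linarith)
        have h4 : T * T ≤ Real.pi ^ 2 * T ^ 2 := by nlinarith [sq_nonneg T]
        nlinarith
  set S : Set (Fin (2 * m) → ℝ) := {γ : Fin (2 * m) → ℝ | ∀ j, (X : ℝ) ^ (-(k : ℝ) + hs) ≤ |γ j|} with hS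
  -- pointwise bound
  have hpt : ∀ γ : Fin (2 * m) → ℝ,
      S.indicator (fun γ => ENNReal.ofReal ((∏ j, qq (γ j)) * GS (2 * m) k X γ ^ s)) γ ≤
        ENNReal.ofReal (2 ^ s) * S.indicator (fun γ => ENNReal.ofReal ((∏ j, qq (γ j)) * VV (2 * m) k X T γ ^ s)) γ +
        ENNReal.ofReal (2 ^ s) * ENNReal.ofReal (∏ j, qq (γ j)) := by
    intro γ
    by_cases hγ : γ ∈ S
    · rw [Set.indicator_of_mem hγ, Set.indicator_of_mem hγ]
      have hq : 0 ≤ ∏ j, qq (γ j) := Finset.prod_nonneg fun j _ => qq_nonneg _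
      have hV := VV_nonneg (2 * m) k X T γ
      rw [← ENNReal.ofReal_mul (by positivity), ← ENNReal.ofReal_mul (by positivity),
        ← ENNReal.ofReal_add (by positivity) (by positivity)]
      apply ENNReal.ofReal_le_ofReal
      have hg : GS (2 * m) k X γ ≤ VV (2 * m) k X T γ + 1 := by
        have := GS_le (2 * m) k X T (by linarith) γ
        linarith
      have hg2 : GS (2 * m) k X γ ^ s ≤ 2 ^ s * (VV (2 * m) k X T γ ^ s + 1) := by
        calc GS (2 * m) k X γ ^ s ≤ (VV (2 * m) k X T γ + 1) ^ s :=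
              pow_le_pow_left₀ (GS_nonneg _ _ _ _) hg s
          _ ≤ 2 ^ (s - 1) * (VV (2 * m) k X T γ ^ s + 1 ^ s) := add_pow_le hV zero_le_one s
          _ ≤ 2 ^ s * (VV (2 * m) k X T γ ^ s + 1) := by
            rw [one_pow]
            apply mul_le_mul_of_nonneg_right _ (by positivity)
            exact pow_le_pow_right₀ (by norm_num) (by omega)
      calc (∏ j, qq (γ j)) * GS (2 * m) k X γ ^ s ≤
            (∏ j, qq (γ j)) * (2 ^ s * (VV (2 * m) k X T γ ^ s + 1)) := mul_le_mul_of_nonneg_left hg2 hq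
        _ = _ := by ring
    · rw [Set.indicator_of_notMem hγ]
      exact zero_le
  have hmeas : Measurable fun γ : Fin (2 * m) → ℝ =>
      ENNReal.ofReal (2 ^ s) * ENNReal.ofReal (∏ j, qq (γ j)) := by
    apply Measurable.const_mul
    apply ENNReal.measurable_ofReal.comp
    exact Finset.measurable_prod _ fun j _ => qq_meas.comp (measurable_pi_apply j)
  -- the exponents
  have he : 1 ≤ (s : ℝ) - k + 1 := by
    have : (k : ℝ) ≤ s := by exact_mod_cast hks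
    linarith
  set E : ℝ := T ^ m * (X : ℝ) ^ ((m : ℝ) * ((s : ℝ) - k + 1)) with hE
  have hE1 : 1 ≤ E := by
    have a1 : 1 ≤ T ^ m := one_le_pow₀ hT1
    have a2 : 1 ≤ (X : ℝ) ^ ((m : ℝ) * ((s : ℝ) - k + 1)) :=
      Real.one_le_rpow (by linarith) (by positivity)
    calc (1 : ℝ) = 1 * 1 := by ring
      _ ≤ _ := mul_le_mul a1 a2 (by norm_num) (by positivity)
  have hgs : ∀ g ∈ Finset.Icc 1 m, ∫⁻ B : Fin g → ℝ, ENNReal.ofReal (WW g k X T B ^ s) ≤
      ENNReal.ofReal (Cg g * E) := by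
    intro g hg
    refine (HW g hg X T (by omega) hT1).trans (ENNReal.ofReal_le_ofReal ?_)
    have hg' := Finset.mem_Icc.1 hg
    have a1 : T ^ g ≤ T ^ m := pow_le_pow_right₀ hT1 hg'.2
    have a2 : (X : ℝ) ^ ((g : ℝ) * ((s : ℝ) - k + 1)) ≤ (X : ℝ) ^ ((m : ℝ) * ((s : ℝ) - k + 1)) := by
      apply Real.rpow_le_rpow_of_exponent_le (by linarith)
      apply mul_le_mul_of_nonneg_right _ (by linarith)
      exact_mod_cast hg'.2
    rw [mul_assoc]
    apply mul_le_mul_of_nonneg_left _ (hCg g).le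
    exact mul_le_mul a1 a2 (by positivity) (by positivity)
  calc ∫⁻ γ : Fin (2 * m) → ℝ, S.indicator
        (fun γ => ENNReal.ofReal ((∏ j, qq (γ j)) * GS (2 * m) k X γ ^ s)) γ
      ≤ ∫⁻ γ : Fin (2 * m) → ℝ, (ENNReal.ofReal (2 ^ s) *
          S.indicator (fun γ => ENNReal.ofReal ((∏ j, qq (γ j)) * VV (2 * m) k X T γ ^ s)) γ +
          ENNReal.ofReal (2 ^ s) * ENNReal.ofReal (∏ j, qq (γ j))) := lintegral_mono hpt
    _ = ENNReal.ofReal (2 ^ s) * (∫⁻ γ : Fin (2 * m) → ℝ,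
          S.indicator (fun γ => ENNReal.ofReal ((∏ j, qq (γ j)) * VV (2 * m) k X T γ ^ s)) γ) +
        ENNReal.ofReal (2 ^ s) * ∫⁻ γ : Fin (2 * m) → ℝ, ENNReal.ofReal (∏ j, qq (γ j)) := by
        rw [lintegral_add_right _ hmeas, lintegral_const_mul' _ _ ENNReal.ofReal_ne_top,
          lintegral_const_mul' _ _ ENNReal.ofReal_ne_top]
    _ ≤ ENNReal.ofReal (2 ^ s) * (ENNReal.ofReal C * ∑ g ∈ Finset.Icc 1 m, ENNReal.ofReal (Cg g * E)) +
        ENNReal.ofReal (2 ^ s) * ENNReal.ofReal Q := by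
        gcongr
        · refine (hX0 X hXa).trans ?_
          gcongr with g hg
          exact hgs g hg
    _ = ENNReal.ofReal (2 ^ s * (C * ∑ g ∈ Finset.Icc 1 m, Cg g * E) + 2 ^ s * Q) := by
        have hnn : 0 ≤ ∑ g ∈ Finset.Icc 1 m, Cg g * E :=
          Finset.sum_nonneg fun g _ => mul_nonneg (hCg g).le (by linarith)
        rw [← ENNReal.ofReal_sum_of_nonneg (fun g _ => mul_nonneg (hCg g).le (by linarith)),
          ← ENNReal.ofReal_mul hC.le, ← ENNReal.ofReal_mul (by positivity),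
          ← ENNReal.ofReal_mul (by positivity), ← ENNReal.ofReal_add (by positivity) (by positivity)]
    _ ≤ ENNReal.ofReal (A * T ^ m * (X : ℝ) ^ ((m : ℝ) * ((s : ℝ) - k + 1))) := by
        apply ENNReal.ofReal_le_ofReal
        rw [← Finset.sum_mul, mul_assoc A, ← hE, hA]
        have : 2 ^ s * Q ≤ 2 ^ s * Q * E := le_mul_of_one_le_right (by positivity) hE1
        nlinarith

end Pool.Agent.N954.KV
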