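import Mathlib
import Pool.Agent.N906.FH.Stm
import Pool.Agent.N906.NT.Stm

/-!
# Project FH, part WIN1
-/

set_option autoImplicit false

namespace Pool.Agent.N954.FH

open Finset Pool.Agent.N906.FH Classical

/-- the radical -/
noncomputable def W1rad (q : ℕ) : ℕ := ∏ p ∈ q.primeFactors, p

/-- the part of `q` composed of the primes with `P` -/
noncomputable def W1g (P : ℕ → Prop) (q : ℕ) : ℕ := ∏ p ∈ q.primeFactors.filter P, p ^ q.factorization p

lemma W1rad_pos (q : ℕ) : 0 < W1rad q := by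
  unfold W1rad
  exact Finset.prod_pos fun p hp => (Nat.prime_of_mem_primeFactors hp).pos

lemma W1g_pos (P : ℕ → Prop) (q : ℕ) : 0 < W1g P q := by
  unfold W1g
  exact Finset.prod_pos fun p hp =>
    pow_pos (Nat.prime_of_mem_primeFactors (Finset.mem_filter.1 hp).1).pos _

lemma W1g_primeFactors (P : ℕ → Prop) (q : ℕ) :
    (W1g P q).primeFactors = q.primeFactors.filter P := by
  ext r
  rw [Nat.mem_primeFactors]
  constructor
  · rintro ⟨hr, hd, -⟩
    unfold W1g at hd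
    rw [Prime.dvd_finsetProd_iff (Nat.Prime.prime hr)] at hd
    obtain ⟨p, hp, hd⟩ := hd
    have hpp := Nat.prime_of_mem_primeFactors (Finset.mem_filter.1 hp).1
    have := (Nat.prime_dvd_prime_iff_eq hr hpp).1 (hr.dvd_of_dvd_pow hd)
    rw [this]; exact hp
  · intro hr
    have h1 := (Finset.mem_filter.1 hr).1
    have hpp := Nat.prime_of_mem_primeFactors h1
    refine ⟨hpp, ?_, (W1g_pos P q).ne'⟩
    unfold W1g
    refine dvd_trans ?_ (Finset.dvd_prod_of_mem _ hr)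
    apply dvd_pow_self
    have h2 := Nat.mem_primeFactors.1 h1
    exact (Nat.Prime.factorization_pos_of_dvd hpp h2.2.2 h2.2.1).ne'

lemma W1g_mul (P : ℕ → Prop) (q : ℕ) (hq : q ≠ 0) :
    W1g P q * W1g (fun p => ¬ P p) q = q := by
  unfold W1g
  rw [Finset.prod_filter_mul_prod_filter_not]
  exact Nat.prod_factorization_pow_eq_self hq

lemma W1rad_mul (P : ℕ → Prop) (q : ℕ) :
    W1rad (W1g P q) * W1rad (W1g (fun p => ¬ P p) q) = W1rad q := by
  unfold W1rad
  rw [W1g_primeFactors, W1g_primeFactors, Finset.prod_filter_mul_prod_filter_not]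

/-- the function in the Euler product -/
noncomputable def W1f (u : ℝ) (n : ℕ) : ℝ := (n : ℝ) ^ (-u) / (W1rad n : ℝ)

lemma W1f_nonneg (u : ℝ) (n : ℕ) : 0 ≤ W1f u n := by unfold W1f; positivity

lemma W1f_one (u : ℝ) : W1f u 1 = 1 := by simp [W1f, W1rad]

lemma W1f_mul (u : ℝ) {m n : ℕ} (h : Nat.Coprime m n) : W1f u (m * n) = W1f u m * W1f u n := by
  unfold W1f
  have h1 : W1rad (m * n) = W1rad m * W1rad n := by
    unfold W1rad
    rw [Nat.Coprime.primeFactors_mul h, Finset.prod_union h.disjoint_primeFactors]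
  rw [h1, Nat.cast_mul, Nat.cast_mul, Real.mul_rpow (Nat.cast_nonneg _) (Nat.cast_nonneg _)]
  rw [mul_div_mul_comm]

lemma W1f_pow (u : ℝ) {p : ℕ} (hp : p.Prime) (n : ℕ) :
    W1f u (p ^ (n + 1)) = (p : ℝ) ^ (-u) / p * ((p : ℝ) ^ (-u)) ^ n := by
  unfold W1f W1rad
  rw [Nat.primeFactors_prime_pow (by omega) hp]
  simp only [Finset.prod_singleton]
  push_cast
  have hp0 : (0 : ℝ) ≤ p := Nat.cast_nonneg _
  rw [← Real.rpow_natCast_mul hp0, ← Real.rpow_mul_natCast hp0]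
  have : (p : ℝ) ^ (((n + 1 : ℕ) : ℝ) * -u) = (p : ℝ) ^ (-u) * (p : ℝ) ^ (-u * (n : ℝ)) := by
    rw [← Real.rpow_add (by exact_mod_cast hp.pos)]
    congr 1; push_cast; ring
  rw [this]; ring

lemma W1f_hasSum (u : ℝ) (hu : 0 < u) {p : ℕ} (hp : p.Prime) :
    HasSum (fun n => W1f u (p ^ n)) ((p : ℝ) ^ (-u) / p * (1 - (p : ℝ) ^ (-u))⁻¹ + 1) := by
  have hp1 : (1 : ℝ) < p := by exact_mod_cast hp.one_lt
  have hx0 : 0 ≤ (p : ℝ) ^ (-u) := by positivity
  have hx1 : (p : ℝ) ^ (-u) < 1 := Real.rpow_lt_one_of_one_lt_of_neg hp1 (by linarith)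
  have h := (hasSum_geometric_of_lt_one hx0 hx1).mul_left ((p : ℝ) ^ (-u) / p)
  have h2 : HasSum (fun n => W1f u (p ^ (n + 1))) ((p : ℝ) ^ (-u) / p * (1 - (p : ℝ) ^ (-u))⁻¹) := by
    simp only [W1f_pow u hp]; exact h
  have h3 := (hasSum_nat_add_iff (f := fun n => W1f u (p ^ n)) 1).1 h2
  simpa [W1f_one] using h3

lemma W1f_tsum (u : ℝ) (hu : 0 < u) {p : ℕ} (hp : p.Prime) :
    ∑' n, W1f u (p ^ n) ≤ Real.exp (1 / u * (1 / ((p : ℝ) * Real.log p))) := by
  rw [(W1f_hasSum u hu hp).tsum_eq]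
  have hp1 : (1 : ℝ) < p := by exact_mod_cast hp.one_lt
  have hp0 : (0 : ℝ) < p := by linarith
  have hl : 0 < Real.log p := Real.log_pos hp1
  have hy : u * Real.log p ≤ (p : ℝ) ^ u - 1 := by
    have := Real.add_one_le_exp (Real.log p * u)
    rw [Real.rpow_def_of_pos hp0]; linarith
  have hy0 : 0 < u * Real.log p := by positivity
  have hpu : 0 < (p : ℝ) ^ u := by positivity
  have e1 : (p : ℝ) ^ (-u) / p * (1 - (p : ℝ) ^ (-u))⁻¹ = 1 / (p * ((p : ℝ) ^ u - 1)) := by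
    rw [Real.rpow_neg hp0.le]
    have h1 : (p : ℝ) ^ u - 1 ≠ 0 := by linarith
    have h2 : 1 - ((p : ℝ) ^ u)⁻¹ = ((p : ℝ) ^ u - 1) / (p : ℝ) ^ u := by
      field_simp
    rw [h2]
    field_simp
  rw [e1]
  have h3 : 1 / (p * ((p : ℝ) ^ u - 1)) ≤ 1 / u * (1 / ((p : ℝ) * Real.log p)) := by
    rw [one_div_mul_one_div]
    apply one_div_le_one_div_of_le (by positivity)
    calc u * (p * Real.log p) = p * (u * Real.log p) := by ring
      _ ≤ _ := mul_le_mul_of_nonneg_left hy hp0.le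
  have h4 := Real.add_one_le_exp (1 / u * (1 / ((p : ℝ) * Real.log p)))
  linarith

/-- the sum over the numbers with all prime factors in `s` -/
lemma W1_rankin (u Z : ℝ) (hu : 0 < u) (s : Finset ℕ) (hs : ∀ p ∈ s, p.Prime) (F : Finset ℕ)
    (hF : ∀ q ∈ F, q ≠ 0 ∧ q.primeFactors ⊆ s ∧ Real.log q ≤ Z) :
    ∑ q ∈ F, (1 : ℝ) / (W1rad q : ℝ) ≤
      Real.exp (u * Z + 1 / u * ∑ p ∈ s, 1 / ((p : ℝ) * Real.log p)) := by
  have hE := EulerProduct.summable_and_hasSum_factoredNumbers_prod_filter_prime_tsum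
    (f := W1f u) (W1f_one u) (fun h => W1f_mul u h)
    (fun {p} hp => by
      have := (W1f_hasSum u hu hp).summable
      refine this.congr fun n => ?_
      rw [Real.norm_of_nonneg (W1f_nonneg _ _)]) s
  have hfs : s.filter (fun p => p.Prime) = s := Finset.filter_true_of_mem hs
  rw [hfs] at hE
  have h1 : ∑ q ∈ F, W1f u q ≤ ∏ p ∈ s, ∑' n, W1f u (p ^ n) := by
    have hmem : ∀ q ∈ F, q ∈ Nat.factoredNumbers s := by
      intro q hq
      rw [Nat.mem_factoredNumbers']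
      intro p hp hd
      exact (hF q hq).2.1 (Nat.mem_primeFactors.2 ⟨hp, hd, (hF q hq).1⟩)
    have h2 := sum_le_hasSum (F.attach.image fun q => (⟨q.1, hmem q.1 q.2⟩ : Nat.factoredNumbers s))
      (fun i _ => W1f_nonneg u i) hE.2
    refine le_trans (le_of_eq ?_) h2
    rw [Finset.sum_image]
    · exact (Finset.sum_attach F fun q => W1f u q).symm
    · intro a _ b _ hab
      apply Subtype.ext
      exact congrArg (fun x : Nat.factoredNumbers s => (x : ℕ)) hab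
  have h2 : ∏ p ∈ s, ∑' n, W1f u (p ^ n) ≤ Real.exp (1 / u * ∑ p ∈ s, 1 / ((p : ℝ) * Real.log p)) := by
    rw [Finset.mul_sum, Real.exp_sum]
    apply Finset.prod_le_prod
    · intro p _; exact tsum_nonneg fun n => W1f_nonneg _ _
    · intro p hp; exact W1f_tsum u hu (hs p hp)
  have h3 : ∑ q ∈ F, (1 : ℝ) / (W1rad q : ℝ) ≤ ∑ q ∈ F, Real.exp (u * Z) * W1f u q := by
    apply Finset.sum_le_sum
    intro q hq
    obtain ⟨hq0, -, hqZ⟩ := hF q hq
    have hq1 : (0 : ℝ) < q := by exact_mod_cast Nat.pos_of_ne_zero hq0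
    unfold W1f
    rw [← mul_div_assoc]
    have : 1 ≤ Real.exp (u * Z) * (q : ℝ) ^ (-u) := by
      rw [Real.rpow_def_of_pos hq1, ← Real.exp_add]
      apply Real.one_le_exp
      nlinarith
    have hr : (0 : ℝ) < W1rad q := by exact_mod_cast W1rad_pos q
    exact div_le_div_of_nonneg_right this hr.le
  rw [← Finset.mul_sum] at h3
  calc _ ≤ _ := h3
    _ ≤ Real.exp (u * Z) * Real.exp (1 / u * ∑ p ∈ s, 1 / ((p : ℝ) * Real.log p)) :=
        mul_le_mul_of_nonneg_left (h1.trans h2) (Real.exp_pos _).le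
    _ = _ := by rw [← Real.exp_add]

/-- removal of the small primes -/
lemma W1_split (P : ℕ → Prop) (F : Finset ℕ) (hF : ∀ q ∈ F, q ≠ 0) :
    ∑ q ∈ F, (1 : ℝ) / (W1rad q : ℝ) ≤
      (∑ q ∈ F.image (W1g P), (1 : ℝ) / (W1rad q : ℝ)) *
        ∑ q ∈ F.image (W1g fun p => ¬ P p), (1 : ℝ) / (W1rad q : ℝ) := by
  rw [Finset.sum_mul_sum, ← Finset.sum_product']
  have h1 : ∑ q ∈ F, (1 : ℝ) / (W1rad q : ℝ) =
      ∑ x ∈ F.image (fun q => (W1g P q, W1g (fun p => ¬ P p) q)),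
        (1 : ℝ) / (W1rad x.1 : ℝ) * (1 / (W1rad x.2 : ℝ)) := by
    rw [Finset.sum_image]
    · apply Finset.sum_congr rfl
      intro q hq
      rw [one_div_mul_one_div, ← Nat.cast_mul, W1rad_mul]
    · intro a ha b hb hab
      simp only [Prod.mk.injEq] at hab
      rw [← W1g_mul P a (hF a ha), ← W1g_mul P b (hF b hb), hab.1, hab.2]
  rw [h1]
  apply Finset.sum_le_sum_of_subset_of_nonneg
  · intro x hx
    obtain ⟨q, hq, rfl⟩ := Finset.mem_image.1 hx
    exact Finset.mem_product.2 ⟨Finset.mem_image_of_mem _ hq, Finset.mem_image_of_mem _ hq⟩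
  · intro x _ _
    positivity

/-- the sum over the primes in the short interval -/
lemma W1_primes (e Z Z' : ℝ) (he : 0 < e) (he1 : e ≤ 1) (hZ' : Z' = Z / (1 + e)) (hZ : 16 ≤ Z)
    (hZe : 4 / e ^ 2 ≤ Z) (s : Finset ℕ) (hs : ∀ p ∈ s, √Z' < (p : ℝ) ∧ (p : ℝ) ≤ √Z) :
    ∑ p ∈ s, 1 / ((p : ℝ) * Real.log p) ≤ 8 * e / Real.log Z := by
  have hZ0 : 0 < Z := by linarith
  have hZ'0 : 0 < Z' := by rw [hZ']; positivity
  have hsZ : 0 < √Z := Real.sqrt_pos.2 hZ0
  have hlZ : 0 < Real.log Z := Real.log_pos (by linarith)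
  -- comparison of the square roots
  have h1 : √Z' ≤ √Z := Real.sqrt_le_sqrt (by
    rw [hZ']; exact div_le_self hZ0.le (by linarith))
  have h2 : (1 - e / 2) * √Z ≤ √Z' := by
    apply Real.le_sqrt_of_sq_le
    rw [mul_pow, Real.sq_sqrt hZ0.le, hZ', le_div_iff₀ (by linarith)]
    nlinarith [mul_nonneg he.le (mul_nonneg he.le hZ0.le), mul_nonneg (mul_nonneg he.le (mul_nonneg he.le hZ0.le)) (by linarith : (0:ℝ) ≤ 3 - e)]
  have h3 : √Z / 2 ≤ √Z' := by nlinarith
  have h4 : 1 ≤ e / 2 * √Z := by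
    have : 2 / e ≤ √Z := by
      apply Real.le_sqrt_of_sq_le
      rw [div_pow]; norm_num; exact hZe
    rw [div_le_iff₀ he] at this
    linarith
  -- the number of elements
  have hcard : (s.card : ℝ) ≤ e * √Z := by
    have hsub : s ⊆ Finset.Ioc ⌊√Z'⌋₊ ⌊√Z⌋₊ := by
      intro p hp
      obtain ⟨ha, hb⟩ := hs p hp
      rw [Finset.mem_Ioc]
      exact ⟨(Nat.floor_lt (Real.sqrt_nonneg _)).2 ha, Nat.le_floor hb⟩
    have hc := Finset.card_le_card hsub
    rw [Nat.card_Ioc] at hc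
    have hle : ⌊√Z'⌋₊ ≤ ⌊√Z⌋₊ := Nat.floor_le_floor h1
    have hc2 : (s.card : ℝ) ≤ (⌊√Z⌋₊ : ℝ) - ⌊√Z'⌋₊ := by
      rw [← Nat.cast_sub hle]; exact_mod_cast hc
    have ha := Nat.floor_le (Real.sqrt_nonneg Z)
    have hb := Nat.lt_floor_add_one (√Z')
    linarith
  -- each term
  have hlog : Real.log Z / 4 ≤ Real.log (√Z / 2) := by
    rw [Real.log_div hsZ.ne' (by norm_num), Real.log_sqrt hZ0.le]
    have : 4 * Real.log 2 ≤ Real.log Z := by
      rw [show (4 : ℝ) * Real.log 2 = Real.log (2 ^ (4 : ℕ)) by rw [Real.log_pow]; norm_num]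
      exact Real.log_le_log (by norm_num) (by norm_num; linarith)
    linarith
  have hterm : ∀ p ∈ s, 1 / ((p : ℝ) * Real.log p) ≤ 8 / (√Z * Real.log Z) := by
    intro p hp
    obtain ⟨ha, hb⟩ := hs p hp
    have hp1 : √Z / 2 ≤ p := by linarith
    have hl : Real.log Z / 4 ≤ Real.log p := hlog.trans (Real.log_le_log (by positivity) hp1)
    have : √Z / 2 * (Real.log Z / 4) ≤ (p : ℝ) * Real.log p :=
      mul_le_mul hp1 hl (by positivity) (by positivity)
    calc 1 / ((p : ℝ) * Real.log p) ≤ 1 / (√Z / 2 * (Real.log Z / 4)) :=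
          one_div_le_one_div_of_le (by positivity) this
      _ = 8 / (√Z * Real.log Z) := by field_simp; norm_num
  calc ∑ p ∈ s, 1 / ((p : ℝ) * Real.log p) ≤ ∑ p ∈ s, 8 / (√Z * Real.log Z) := Finset.sum_le_sum hterm
    _ = s.card * (8 / (√Z * Real.log Z)) := by rw [Finset.sum_const, nsmul_eq_mul]
    _ ≤ (e * √Z) * (8 / (√Z * Real.log Z)) := mul_le_mul_of_nonneg_right hcard (by positivity)
    _ = 8 * e / Real.log Z := by field_simp

theorem win1 (h : Pool.Agent.N906.NT.S_WINN) : S_WIN1 := by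
  intro ε c hε hε1 hc
  set e : ℝ := ε ^ 2 / 16 with he
  have he0 : 0 < e := by positivity
  have hese : √e = ε / 4 := by
    rw [he, show ε ^ 2 / 16 = (ε / 4) ^ 2 by ring]
    exact Real.sqrt_sq (by positivity)
  have he1 : e ≤ ε / 16 := by rw [he]; nlinarith
  have he1' : e ≤ 1 := by linarith
  have hCx : Pool.Agent.N906.NT.Cx (Finset.univ : Finset (Finset (Fin 1))) 1 1 := by
    refine ⟨le_refl _, le_refl _, Finset.mem_univ _, fun _ _ _ _ => Finset.mem_univ _, ?_, ?_⟩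
    · intro s _
      exact (Finset.card_le_univ s).trans (by simp)
    · decide
  obtain ⟨Z₀, hZ₀, H⟩ := h 1 Finset.univ 1 1 e c hCx he0 (by linarith) hc
  refine ⟨max (2 * Z₀) (max 32 (4 / e ^ 2)), ?_, ?_⟩
  · exact lt_of_lt_of_le (by norm_num) ((le_max_left _ _).trans (le_max_right _ _))
  intro Z hZ
  have hZa : 2 * Z₀ ≤ Z := (le_max_left _ _).trans hZ
  have hZb : 32 ≤ Z := ((le_max_left _ _).trans (le_max_right _ _)).trans hZ
  have hZc : 4 / e ^ 2 ≤ Z := ((le_max_right _ _).trans (le_max_right _ _)).trans hZ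
  have hZ0 : 0 < Z := by linarith
  set Z' : ℝ := Z / (1 + e) with hZ'
  have hZ'1 : (1 + e) * Z' = Z := by rw [hZ']; field_simp
  have hZ'Z : Z' ≤ Z := div_le_self hZ0.le (by linarith)
  have hZ'2 : Z / 2 ≤ Z' := by
    rw [hZ']; exact div_le_div_of_nonneg_left hZ0.le (by linarith) (by linarith)
  have hlZ : 0 < Real.log Z := Real.log_pos (by linarith)
  have hlZ' : 0 < Real.log Z' := Real.log_pos (by linarith)
  obtain ⟨F, hF, hFs⟩ := H Z' (by linarith)
  -- the set of numbers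
  set G : Finset ℕ := F.image (fun D => D 0) with hG
  have hpr : ∀ D : Fin 1 → ℕ, Pool.Agent.N906.NT.pr D = D 0 := by
    intro D; simp [Pool.Agent.N906.NT.pr]
  have hrr : ∀ D : Fin 1 → ℕ, Pool.Agent.N906.NT.rr D = W1rad (D 0) := by
    intro D; simp only [Pool.Agent.N906.NT.rr, hpr, W1rad]
  have hG1 : ∀ q ∈ G, q ≠ 0 ∧ (∀ p ∈ q.primeFactors, √Z' < (p : ℝ)) ∧ Real.log q ≤ Z ∧
      Real.log (W1rad q) ≤ ε * Z ∧ ∑ p ∈ q.primeFactors, (1 : ℝ) / p ≤ c := by
    intro q hq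
    obtain ⟨D, hD, rfl⟩ := Finset.mem_image.1 hq
    obtain ⟨hT, -, hp, hg, hr, hs⟩ := hF D hD
    have h1 := hT.1 0
    have hq0 : (0 : ℝ) < (D 0 : ℕ) := by exact_mod_cast h1
    have hr0 : (0 : ℝ) < (W1rad (D 0) : ℕ) := by exact_mod_cast W1rad_pos _
    rw [hpr] at hp hs
    rw [hrr] at hr
    unfold Pool.Agent.N906.NT.gn at hg
    rw [hpr, hrr, Real.log_div hq0.ne' hr0.ne'] at hg
    refine ⟨by show D 0 ≠ 0; omega, hp, ?_, ?_, hs⟩
    · show Real.log (D 0 : ℕ) ≤ Z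
      linarith
    · show Real.log (W1rad (D 0) : ℕ) ≤ ε * Z
      have : e * Z' ≤ ε * Z := by
        apply mul_le_mul (by linarith) hZ'Z (by linarith) hε.le
      linarith
  have hGs : ∑ D ∈ F, (1 : ℝ) / (Pool.Agent.N906.NT.rr D : ℝ) = ∑ q ∈ G, (1 : ℝ) / (W1rad q : ℝ) := by
    rw [hG, Finset.sum_image]
    · apply Finset.sum_congr rfl
      intro D _; rw [hrr]
    · intro a _ b _ hab
      funext i
      have : i = 0 := Subsingleton.elim _ _
      rw [this]; exact hab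
  rw [hGs] at hFs
  set P : ℕ → Prop := fun p => √Z < (p : ℝ) with hP
  have hsplit := W1_split P G fun q hq => (hG1 q hq).1
  set G1 := G.image (W1g P) with hG1d
  set G2 := G.image (W1g fun p => ¬ P p) with hG2d
  set u : ℝ := √(8 * e / (Z * Real.log Z)) with hu
  have hu2 : u ^ 2 = 8 * e / (Z * Real.log Z) := Real.sq_sqrt (by positivity)
  have hu0 : 0 < u := Real.sqrt_pos.2 (by positivity)
  set s : Finset ℕ := (Finset.range (⌊√Z⌋₊ + 1)).filter (fun p => p.Prime ∧ √Z' < (p : ℝ)) with hs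
  have hs1 : ∀ p ∈ s, p.Prime := fun p hp => (Finset.mem_filter.1 hp).2.1
  have hs2 : ∀ p ∈ s, √Z' < (p : ℝ) ∧ (p : ℝ) ≤ √Z := by
    intro p hp
    obtain ⟨ha, hb, hc⟩ := Finset.mem_filter.1 hp
    refine ⟨hc, ?_⟩
    rw [Finset.mem_range] at ha
    exact (Nat.le_floor_iff (Real.sqrt_nonneg _)).1 (by omega)
  have hG2s : ∑ q ∈ G2, (1 : ℝ) / (W1rad q : ℝ) ≤
      Real.exp (u * Z + 1 / u * ∑ p ∈ s, 1 / ((p : ℝ) * Real.log p)) := by
    apply W1_rankin u Z hu0 s hs1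
    intro q hq
    obtain ⟨q', hq', rfl⟩ := Finset.mem_image.1 hq
    obtain ⟨h1, h2, h3, h4, h5⟩ := hG1 q' hq'
    refine ⟨(W1g_pos _ _).ne', ?_, ?_⟩
    · rw [W1g_primeFactors]
      intro p hp
      simp only [Finset.mem_filter] at hp
      obtain ⟨ha, hb⟩ := hp
      rw [hs, Finset.mem_filter, Finset.mem_range]
      refine ⟨?_, Nat.prime_of_mem_primeFactors ha, h2 p ha⟩
      have : (p : ℝ) ≤ √Z := not_lt.1 hb
      have := Nat.le_floor this
      omega
    · refine le_trans (Real.log_le_log (by exact_mod_cast W1g_pos _ _) ?_) h3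
      have hm := W1g_mul P q' h1
      have hp1 := W1g_pos P q'
      exact_mod_cast (show W1g (fun p => ¬ P p) q' ≤ q' by
        calc W1g (fun p => ¬ P p) q' ≤ W1g P q' * W1g (fun p => ¬ P p) q' := Nat.le_mul_of_pos_left _ hp1
          _ = q' := hm)
  have hprm := W1_primes e Z Z' he0 he1' hZ' (by linarith) hZc s hs2
  -- the exponent
  set R : ℝ := √(8 * Z / Real.log Z) with hR
  have hR2 : R ^ 2 = 8 * Z / Real.log Z := Real.sq_sqrt (by positivity)
  have hR0 : 0 < R := Real.sqrt_pos.2 (by positivity)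
  have huZ : u * Z = √e * R := by
    have h1 : u * Z = √(8 * e / (Z * Real.log Z)) * √(Z ^ 2) := by rw [Real.sqrt_sq hZ0.le]
    rw [h1, ← Real.sqrt_mul (by positivity), hR, ← Real.sqrt_mul he0.le]
    congr 1
    field_simp
  have huS : 1 / u * ∑ p ∈ s, 1 / ((p : ℝ) * Real.log p) ≤ √e * R := by
    calc 1 / u * ∑ p ∈ s, 1 / ((p : ℝ) * Real.log p) ≤ 1 / u * (8 * e / Real.log Z) :=
          mul_le_mul_of_nonneg_left hprm (by positivity)
      _ = 1 / u * (u ^ 2 * Z) := by rw [hu2]; field_simp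
      _ = u * Z := by field_simp
      _ = _ := huZ
  have hG2e : ∑ q ∈ G2, (1 : ℝ) / (W1rad q : ℝ) ≤ Real.exp (ε / 2 * R) := by
    refine hG2s.trans (Real.exp_le_exp.2 ?_)
    rw [huZ]
    rw [hese] at huS ⊢
    linarith
  -- the main term
  have hcst : Pool.Agent.N906.NT.cst 1 1 = √8 := by
    unfold Pool.Agent.N906.NT.cst
    norm_num
    rw [show (8 : ℝ) = 2 ^ (3 : ℝ) by norm_num, Real.sqrt_eq_rpow, ← Real.rpow_mul (by norm_num)]
    norm_num
  have hmain : (1 - 2 * e) * R ≤ (1 - e) * Pool.Agent.N906.NT.cst 1 1 *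
      (Z' / Real.log Z') ^ (((1 : ℕ) : ℝ) / (((1 : ℕ) : ℝ) + 1)) := by
    rw [hcst]
    have h1 : (Z' / Real.log Z') ^ (((1 : ℕ) : ℝ) / (((1 : ℕ) : ℝ) + 1)) = √(Z' / Real.log Z') := by
      rw [Real.sqrt_eq_rpow]; norm_num
    rw [h1]
    have h2 : (1 - e) * √(Z / Real.log Z) ≤ √(Z' / Real.log Z') := by
      apply Real.le_sqrt_of_sq_le
      rw [mul_pow, Real.sq_sqrt (by positivity)]
      have h3 : Real.log Z' ≤ Real.log Z := Real.log_le_log (by linarith) hZ'Z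
      calc (1 - e) ^ 2 * (Z / Real.log Z) ≤ (1 / (1 + e)) * (Z / Real.log Z) := by
            apply mul_le_mul_of_nonneg_right _ (by positivity)
            rw [le_div_iff₀ (by linarith)]
            nlinarith [mul_nonneg he0.le he0.le, mul_nonneg (mul_nonneg he0.le he0.le) (by linarith : (0:ℝ) ≤ 1 - e)]
        _ = Z' / Real.log Z := by rw [hZ']; field_simp
        _ ≤ Z' / Real.log Z' := div_le_div_of_nonneg_left (by linarith) hlZ' h3
    have h4 : R = √8 * √(Z / Real.log Z) := by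
      rw [hR, ← Real.sqrt_mul (by norm_num)]; congr 1; ring
    rw [h4, mul_assoc]
    have h5 : (0 : ℝ) ≤ √8 * √(Z / Real.log Z) := by positivity
    calc (1 - 2 * e) * (√8 * √(Z / Real.log Z)) ≤ ((1 - e) * (1 - e)) * (√8 * √(Z / Real.log Z)) :=
          mul_le_mul_of_nonneg_right (by nlinarith) h5
      _ = (1 - e) * (√8 * ((1 - e) * √(Z / Real.log Z))) := by ring
      _ ≤ (1 - e) * (√8 * √(Z' / Real.log Z')) := by
          apply mul_le_mul_of_nonneg_left _ (by linarith)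
          exact mul_le_mul_of_nonneg_left h2 (Real.sqrt_nonneg _)
  refine ⟨G1, ?_, ?_⟩
  · intro q hq
    obtain ⟨q', hq', rfl⟩ := Finset.mem_image.1 hq
    obtain ⟨h1, h2, h3, h4, h5⟩ := hG1 q' hq'
    have hm := W1g_mul P q' h1
    have hrm := W1rad_mul P q'
    refine ⟨W1g_pos _ _, ?_, ?_, ?_, ?_⟩
    · intro p hp
      rw [W1g_primeFactors] at hp
      exact (Finset.mem_filter.1 hp).2
    · refine le_trans (Real.log_le_log (by exact_mod_cast W1g_pos _ _) ?_) h3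
      have hp1 := W1g_pos (fun p => ¬ P p) q'
      exact_mod_cast (show W1g P q' ≤ q' by
        calc W1g P q' ≤ W1g P q' * W1g (fun p => ¬ P p) q' := Nat.le_mul_of_pos_right _ hp1
          _ = q' := hm)
    · show Real.log (W1rad (W1g P q') : ℕ) ≤ ε * Z
      refine le_trans (Real.log_le_log (by exact_mod_cast W1rad_pos _) ?_) h4
      have hp1 := W1rad_pos (W1g (fun p => ¬ P p) q')
      exact_mod_cast (show W1rad (W1g P q') ≤ W1rad q' by
        calc W1rad (W1g P q') ≤ W1rad (W1g P q') * W1rad (W1g (fun p => ¬ P p) q') :=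
              Nat.le_mul_of_pos_right _ hp1
          _ = W1rad q' := hrm)
    · rw [W1g_primeFactors]
      refine le_trans (Finset.sum_le_sum_of_subset_of_nonneg (Finset.filter_subset _ _) ?_) h5
      intro p _ _; positivity
  · show Real.exp ((1 - ε) * R) ≤ ∑ q ∈ G1, (1 : ℝ) / ((W1rad q : ℕ) : ℝ)
    have hpos2 : 0 < Real.exp (ε / 2 * R) := Real.exp_pos _
    have hS1 : 0 ≤ ∑ q ∈ G1, (1 : ℝ) / ((W1rad q : ℕ) : ℝ) :=
      Finset.sum_nonneg fun q _ => by positivity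
    have hchain : Real.exp ((1 - 2 * e) * R) ≤
        (∑ q ∈ G1, (1 : ℝ) / ((W1rad q : ℕ) : ℝ)) * Real.exp (ε / 2 * R) := by
      calc Real.exp ((1 - 2 * e) * R) ≤ _ := Real.exp_le_exp.2 hmain
        _ ≤ _ := hFs
        _ ≤ _ := hsplit
        _ ≤ _ := mul_le_mul_of_nonneg_left hG2e hS1
    have : Real.exp ((1 - ε) * R) * Real.exp (ε / 2 * R) ≤
        (∑ q ∈ G1, (1 : ℝ) / ((W1rad q : ℕ) : ℝ)) * Real.exp (ε / 2 * R) := by
      refine le_trans ?_ hchain
      rw [← Real.exp_add]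
      apply Real.exp_le_exp.2
      have : (1 - ε) + ε / 2 ≤ 1 - 2 * e := by linarith
      calc (1 - ε) * R + ε / 2 * R = ((1 - ε) + ε / 2) * R := by ring
        _ ≤ _ := mul_le_mul_of_nonneg_right this hR0.le
    exact le_of_mul_le_mul_right this hpos2

end Pool.Agent.N954.FH
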